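import Pool.Agent.W937.AffInvA

/-!
# Constraints on few points cannot exclude the trace of the cube
-/

namespace Pool.Agent.W937.AffInv

open Finset

section

variable (t : ℕ)

/-- functions whose monomials have exponents in `DD t` -/
def PP (f : GaloisField 2 t → ZMod 2) : Prop :=
  ∃ c : ℕ → GaloisField 2 t, ∀ x : GaloisField 2 t,
    algebraMap (ZMod 2) (GaloisField 2 t) (f x) = ∑ d ∈ DD t, c d * x ^ d

/-- the subspace of the functions with exponents in `DD t` -/
def WW : Submodule (ZMod 2) (GaloisField 2 t → ZMod 2) where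
  carrier := {f | PP t f}
  add_mem' := by
    rintro f g ⟨c, hc⟩ ⟨c', hc'⟩
    refine ⟨fun d => c d + c' d, fun x => ?_⟩
    simp only [Pi.add_apply, map_add, hc, hc', add_mul, Finset.sum_add_distrib]
  zero_mem' := ⟨fun _ => 0, fun x => by simp⟩
  smul_mem' := by
    rintro a f ⟨c, hc⟩
    refine ⟨fun d => algebraMap _ _ a * c d, fun x => ?_⟩
    simp only [Pi.smul_apply, smul_eq_mul, map_mul, hc, Finset.mul_sum, mul_assoc]

lemma mem_WW {f : GaloisField 2 t → ZMod 2} : f ∈ WW t ↔ PP t f := Iff.rfl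

variable {t}

noncomputable instance : Fintype (GaloisField 2 t) := Fintype.ofFinite _

lemma card_gf (ht : t ≠ 0) : Fintype.card (GaloisField 2 t) = 2 ^ t := by
  rw [← Nat.card_eq_fintype_card, GaloisField.card 2 t ht]

lemma pow_q (ht : t ≠ 0) (x : GaloisField 2 t) : x ^ (2 ^ t) = x := by
  rw [← card_gf ht]; exact FiniteField.pow_card x

lemma pow_red (ht : t ≠ 0) (x : GaloisField 2 t) (q m : ℕ) :
    x ^ ((2 ^ t - 1) * q + (m + 1)) = x ^ (m + 1) := by
  induction q with
  | zero => simp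
  | succ q ih =>
    have hp : 0 < 2 ^ t := by positivity
    have : (2 ^ t - 1) * (q + 1) + (m + 1) = 2 ^ t + ((2 ^ t - 1) * q + m) := by
      obtain ⟨N, hN⟩ : ∃ N, 2 ^ t = N + 1 := ⟨2 ^ t - 1, by omega⟩
      rw [hN, Nat.add_sub_cancel]; ring
    rw [this, pow_add, pow_q ht, ← pow_succ', ← ih, add_assoc]

lemma pow_dbl (ht : t ≠ 0) (x : GaloisField 2 t) {d : ℕ} (hd : d ≠ 0) :
    x ^ dbl t d = (x ^ d) ^ 2 := by
  have h := Nat.div_add_mod (2 * d - 1) (2 ^ t - 1)
  rw [← pow_mul, dbl, ← pow_red ht x ((2 * d - 1) / (2 ^ t - 1)), ← add_assoc, h]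
  congr 1
  omega

lemma dbl_ne_zero (d : ℕ) : dbl t d ≠ 0 := Nat.succ_ne_zero _

lemma dbl_iter_ne_zero {d : ℕ} (hd : d ≠ 0) (i : ℕ) : (dbl t)^[i] d ≠ 0 := by
  cases i with
  | zero => simpa
  | succ i => rw [Function.iterate_succ_apply']; exact dbl_ne_zero _

lemma dbl_iter_mem (ht : 3 ≤ t) {d : ℕ} (hd : d ≠ 0) (hD : d ∈ DD t) (i : ℕ) :
    (dbl t)^[i] d ∈ DD t := by
  induction i with
  | zero => simpa
  | succ i ih =>
    rw [Function.iterate_succ_apply']
    exact DD_dbl ht ih (dbl_iter_ne_zero hd i)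

lemma pow_dbl_iter (ht : t ≠ 0) (x : GaloisField 2 t) {d : ℕ} (hd : d ≠ 0) (i : ℕ) :
    x ^ (dbl t)^[i] d = (x ^ d) ^ 2 ^ i := by
  induction i with
  | zero => simp
  | succ i ih =>
    rw [Function.iterate_succ_apply', pow_dbl ht x (dbl_iter_ne_zero hd i), ih, ← pow_mul,
      ← pow_succ]

lemma trace_formula (ht : t ≠ 0) (y : GaloisField 2 t) :
    algebraMap (ZMod 2) (GaloisField 2 t) (Algebra.trace (ZMod 2) (GaloisField 2 t) y) =
      ∑ i ∈ Finset.range t, y ^ 2 ^ i := by
  rw [FiniteField.algebraMap_trace_eq_sum_pow, GaloisField.finrank 2 ht]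
  simp

lemma trace_mem (ht : 3 ≤ t) {e : ℕ} (he : e ≠ 0) (hD : e ∈ DD t) (b : GaloisField 2 t) :
    PP t (fun x => Algebra.trace (ZMod 2) (GaloisField 2 t) (b * x ^ e)) := by
  classical
  refine ⟨fun d => ∑ i ∈ (Finset.range t).filter (fun i => (dbl t)^[i] e = d), b ^ 2 ^ i, ?_⟩
  intro x
  simp only
  rw [trace_formula (by omega)]
  have h1 : ∀ i ∈ Finset.range t, (b * x ^ e) ^ 2 ^ i = b ^ 2 ^ i * x ^ (dbl t)^[i] e := by
    intro i _
    rw [mul_pow, pow_dbl_iter (by omega) x he]
  rw [Finset.sum_congr rfl h1]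
  rw [← Finset.sum_fiberwise_of_maps_to (s := Finset.range t) (t := DD t)
    (g := fun i => (dbl t)^[i] e) (fun i _ => dbl_iter_mem ht he hD i)]
  refine Finset.sum_congr rfl fun d _ => ?_
  rw [Finset.sum_mul]
  refine Finset.sum_congr rfl fun i hi => ?_
  rw [(Finset.mem_filter.1 hi).2]

lemma trace_nondeg {y : GaloisField 2 t}
    (h : ∀ b, Algebra.trace (ZMod 2) (GaloisField 2 t) (b * y) = 0) : y = 0 := by
  have := (traceForm_nondegenerate (ZMod 2) (GaloisField 2 t)).2 y
  simp_rw [Algebra.traceForm_apply] at this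
  exact this h

lemma cube_inj (hodd : t % 2 = 1) {x y : GaloisField 2 t} (hx : x ≠ 0) (hy : y ≠ 0)
    (h : x ^ 3 = y ^ 3) : x = y := by
  have ht : t ≠ 0 := by omega
  have h1 : (x / y) ^ 3 = 1 := by
    rw [div_pow, h, div_self (pow_ne_zero _ hy)]
  have hne : x / y ≠ 0 := div_ne_zero hx hy
  have h2 : (x / y) ^ (2 ^ t - 1) = 1 := by
    rw [← card_gf ht]; exact FiniteField.pow_card_sub_one_eq_one _ hne
  have hc : Nat.Coprime 3 (2 ^ t - 1) := by
    rw [Nat.Prime.coprime_iff_not_dvd Nat.prime_three]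
    intro hd
    obtain ⟨m, hm⟩ : ∃ m, t = 2 * m + 1 := ⟨t / 2, by omega⟩
    have h4 : 2 ^ t % 3 = 2 := by
      rw [hm, pow_succ, pow_mul, Nat.mul_mod, Nat.pow_mod]; norm_num
    have h5 : 0 < 2 ^ t := by positivity
    omega
  have h3 : orderOf (x / y) = 1 := by
    apply Nat.eq_one_of_dvd_coprimes hc
    · exact orderOf_dvd_of_pow_eq_one h1
    · exact orderOf_dvd_of_pow_eq_one h2
  rw [orderOf_eq_one_iff] at h3
  field_simp at h3
  exact h3

/-- on few points the trace of the cube agrees with some function with exponents in `DD t`. -/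
lemma agree (hodd : t % 2 = 1) (ht : 3 ≤ t) {k : ℕ} (hk : k + 2 ≤ t)
    (α : Fin k → GaloisField 2 t) :
    ∃ g, PP t g ∧ ∀ i, g (α i) = Algebra.trace (ZMod 2) (GaloisField 2 t) (α i ^ 3) := by
  classical
  by_contra hcon
  set f : Fin k → ZMod 2 :=
    fun i => Algebra.trace (ZMod 2) (GaloisField 2 t) (α i ^ 3) with hf
  have hnot : f ∉ (WW t).map (LinearMap.funLeft (ZMod 2) (ZMod 2) α) := by
    rintro ⟨g, hg, hgf⟩
    exact hcon ⟨g, hg, fun i => congrFun hgf i⟩
  obtain ⟨φ, hφ, hφ0⟩ := Submodule.exists_dual_map_eq_bot_of_notMem hnot inferInstance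
  set l : Fin k → ZMod 2 := fun i => φ (Pi.single i 1) with hl
  have hφl : ∀ v : Fin k → ZMod 2, φ v = ∑ i, v i * l i := by
    intro v
    rw [LinearMap.pi_apply_eq_sum_univ φ v]
    refine Finset.sum_congr rfl fun i _ => ?_
    rw [smul_eq_mul, hl]
    congr 2
    ext j
    simp [Pi.single_apply, eq_comm]
  have hW : ∀ g, PP t g → ∑ i, g (α i) * l i = 0 := by
    intro g hg
    have h1 : φ (LinearMap.funLeft (ZMod 2) (ZMod 2) α g) ∈
        ((WW t).map (LinearMap.funLeft (ZMod 2) (ZMod 2) α)).map φ :=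
      Submodule.mem_map_of_mem (Submodule.mem_map_of_mem hg)
    rw [hφ0, Submodule.mem_bot, hφl] at h1
    exact h1
  set S : ℕ → GaloisField 2 t := fun e => ∑ i, l i • α i ^ e with hS
  have hST : ∀ e b, Algebra.trace (ZMod 2) (GaloisField 2 t) (b * S e) =
      ∑ i, Algebra.trace (ZMod 2) (GaloisField 2 t) (b * α i ^ e) * l i := by
    intro e b
    simp only [hS, Finset.mul_sum, map_sum, mul_smul_comm, map_smul, smul_eq_mul]
    exact Finset.sum_congr rfl fun i _ => mul_comm _ _
  have hS0 : ∀ e, e ≠ 0 → e ∈ DD t → S e = 0 := by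
    intro e he hD
    apply trace_nondeg
    intro b
    rw [hST]
    exact hW _ (trace_mem ht he hD b)
  have hS3 : S 3 ≠ 0 := by
    intro h
    apply hφ
    rw [hφl]
    have := hST 3 1
    rw [h, mul_zero, map_zero] at this
    simp only [one_mul] at this
    exact this.symm
  -- squares
  have hchar : CharP (GaloisField 2 t) 2 := inferInstance
  have hfrob : ∀ e, S e ^ 2 = S (2 * e) := by
    intro e
    simp only [hS]
    rw [sum_pow_char 2]
    refine Finset.sum_congr rfl fun i _ => ?_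
    rw [smul_pow, ← pow_mul, mul_comm e 2]
    congr 1
    exact ZMod.pow_card (p := 2) (l i)
  have hS2 : S 2 = 0 := by
    have h := hfrob 1
    rw [hS0 1 (by norm_num) (one_mem_DD ht)] at h
    simpa using h.symm
  have hSlast : S (1 + 2 ^ (t - 1)) ^ 2 = S 3 := by
    rw [hfrob]
    simp only [hS]
    refine Finset.sum_congr rfl fun i _ => ?_
    have : 2 * (1 + 2 ^ (t - 1)) = 2 + 2 ^ t := by
      have : 2 ^ t = 2 * 2 ^ (t - 1) := by rw [← pow_succ']; congr 1; omega
      omega
    rw [this, pow_add, pow_q (by omega)]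
    congr 1
    ring
  -- the kernel
  set T : GaloisField 2 t →ₗ[ZMod 2] (Fin k → ZMod 2) :=
    LinearMap.pi fun i => (Algebra.trace (ZMod 2) (GaloisField 2 t)).comp
      (LinearMap.mulLeft (ZMod 2) (α i)) with hT
  have hker : ∀ x, T x = 0 → x ≠ 0 → S 3 * x ^ 3 = 1 := by
    intro x hx hx0
    have hTi : ∀ i, Algebra.trace (ZMod 2) (GaloisField 2 t) (α i * x) = 0 := by
      intro i
      have := congrFun hx i
      simpa [hT] using this
    have h1 : ∑ j ∈ Finset.range t, S (1 + 2 ^ j) * x ^ 2 ^ j = 0 := by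
      have h2 : ∀ i, (l i • α i) * ∑ j ∈ Finset.range t, (α i * x) ^ 2 ^ j = 0 := by
        intro i
        rw [← trace_formula (by omega), hTi i, map_zero, mul_zero]
      have h3 : ∑ i, (l i • α i) * ∑ j ∈ Finset.range t, (α i * x) ^ 2 ^ j = 0 :=
        Finset.sum_eq_zero fun i _ => h2 i
      rw [← h3]
      simp only [hS, Finset.mul_sum, Finset.sum_mul]
      rw [Finset.sum_comm]
      refine Finset.sum_congr rfl fun i _ => Finset.sum_congr rfl fun j _ => ?_
      rw [pow_add, pow_one, mul_pow, smul_mul_assoc, smul_mul_assoc, mul_assoc]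
    have h4 : ∑ j ∈ Finset.range t, S (1 + 2 ^ j) * x ^ 2 ^ j =
        S 3 * x ^ 2 + S (1 + 2 ^ (t - 1)) * x ^ 2 ^ (t - 1) := by
      rw [← Finset.sum_subset (s₁ := {1, t - 1})]
      · rw [Finset.sum_pair (by omega)]
        norm_num
      · intro a ha
        simp only [Finset.mem_insert, Finset.mem_singleton] at ha
        rw [Finset.mem_range]; omega
      · intro j hj hj'
        simp only [Finset.mem_insert, Finset.mem_singleton, not_or] at hj'
        rw [Finset.mem_range] at hj
        rcases Nat.eq_zero_or_pos j with rfl | hj0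
        · norm_num
          left; exact hS2
        · rw [hS0 (1 + 2 ^ j) (by positivity) (quad_mem_DD ht (by omega) (by omega)), zero_mul]
    rw [h4] at h1
    have h5 : (S 3 * x ^ 2 + S (1 + 2 ^ (t - 1)) * x ^ 2 ^ (t - 1)) ^ 2 = 0 := by
      rw [h1]; simp
    rw [CharTwo.add_sq, mul_pow, mul_pow, hSlast, ← pow_mul, ← pow_mul, ← pow_succ,
      Nat.sub_add_cancel (by omega), pow_q (by omega)] at h5
    have h6 : S 3 * x * (S 3 * x ^ 3 + 1) = 0 := by
      rw [← h5]; ring
    rcases mul_eq_zero.1 h6 with h7 | h7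
    · exact absurd h7 (mul_ne_zero hS3 hx0)
    · exact CharTwo.add_eq_zero.1 h7
  have hfin : Module.finrank (ZMod 2) (LinearMap.ker T) ≤ 1 := by
    by_cases hz : ∀ x, T x = 0 → x = 0
    · have : LinearMap.ker T = ⊥ := by
        rw [eq_bot_iff]
        intro x hx
        exact hz x hx
      rw [this]; simp
    · push Not at hz
      obtain ⟨x, hx, hx0⟩ := hz
      refine finrank_le_one (⟨x, hx⟩ : LinearMap.ker T) ?_
      rintro ⟨y, hy⟩
      by_cases hy0 : y = 0
      · refine ⟨0, ?_⟩
        ext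
        simp [hy0]
      · refine ⟨1, ?_⟩
        ext
        simp only [one_smul]
        apply cube_inj hodd hx0 hy0
        have h1 := hker x hx hx0
        have h2 := hker y hy hy0
        exact mul_left_cancel₀ hS3 (h1.trans h2.symm)
  have hrn := LinearMap.finrank_range_add_finrank_ker T
  have hr : Module.finrank (ZMod 2) (LinearMap.range T) ≤ k := by
    have := Submodule.finrank_le (LinearMap.range T)
    simpa using this
  rw [GaloisField.finrank 2 (by omega)] at hrn
  omega

lemma cube_not_mem (ht : 3 ≤ t) :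
    ¬ PP t (fun x => Algebra.trace (ZMod 2) (GaloisField 2 t) (x ^ 3)) := by
  classical
  rintro ⟨c, hc⟩
  have h3D : (3 : ℕ) ∉ DD t := by
    intro h
    have := (mem_DD.1 h).2.2 0 (by omega)
    apply this
    rw [Nat.mod_eq_of_lt (by omega)]
    norm_num
  have hexp : ∀ i < t, ∀ x : GaloisField 2 t, (x ^ 3) ^ 2 ^ i = x ^ (2 ^ i + 2 ^ ((i + 1) % t)) := by
    intro i hi x
    rcases Nat.lt_or_ge (i + 1) t with h | h
    · rw [Nat.mod_eq_of_lt h, ← pow_mul]
      congr 1; ring
    · have hit : i + 1 = t := by omega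
      rw [hit, Nat.mod_self, ← pow_mul]
      have : 3 * 2 ^ i = 2 ^ t + 2 ^ i := by rw [← hit]; ring
      rw [this, pow_add, pow_add, pow_q (by omega), pow_zero, pow_one, mul_comm]
  set q : Polynomial (GaloisField 2 t) :=
    ∑ i ∈ Finset.range t, Polynomial.X ^ (2 ^ i + 2 ^ ((i + 1) % t)) -
      ∑ d ∈ DD t, Polynomial.C (c d) * Polynomial.X ^ d with hq
  have hev : ∀ x, q.eval x = 0 := by
    intro x
    have := hc x
    rw [trace_formula (by omega)] at this
    simp only [hq, Polynomial.eval_sub, Polynomial.eval_finsetSum, Polynomial.eval_pow,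
      Polynomial.eval_X, Polynomial.eval_mul, Polynomial.eval_C]
    rw [← this, sub_eq_zero]
    refine Finset.sum_congr rfl fun i hi => ?_
    rw [hexp i (Finset.mem_range.1 hi)]
  have hdeg : q.degree < (2 ^ t : ℕ) := by
    refine lt_of_le_of_lt (Polynomial.degree_sub_le _ _) (max_lt ?_ ?_)
    · refine lt_of_le_of_lt (Polynomial.degree_sum_le _ _) ?_
      rw [Finset.sup_lt_iff (by exact_mod_cast WithBot.bot_lt_coe _)]
      intro i hi
      rw [Polynomial.degree_X_pow]
      have hi := Finset.mem_range.1 hi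
      have : 2 ^ i + 2 ^ ((i + 1) % t) < 2 ^ t := by
        rcases Nat.lt_or_ge (i + 1) t with h | h
        · rw [Nat.mod_eq_of_lt h]
          have h1 : 2 ^ i < 2 ^ (t - 1) := Nat.pow_lt_pow_right (by norm_num) (by omega)
          have h2 : 2 ^ (i + 1) ≤ 2 ^ (t - 1) := Nat.pow_le_pow_right (by norm_num) (by omega)
          have h3 : 2 ^ t = 2 * 2 ^ (t - 1) := by rw [← pow_succ']; congr 1; omega
          omega
        · have hit : i + 1 = t := by omega
          rw [hit, Nat.mod_self]
          have h3 : 2 ^ t = 2 * 2 ^ i := by rw [← pow_succ']; congr 1; omega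
          have h4 : 2 ^ 1 ≤ 2 ^ i := Nat.pow_le_pow_right (by norm_num) (by omega)
          omega
      exact_mod_cast this
    · refine lt_of_le_of_lt (Polynomial.degree_sum_le _ _) ?_
      rw [Finset.sup_lt_iff (by exact_mod_cast WithBot.bot_lt_coe _)]
      intro d hd
      refine lt_of_le_of_lt (Polynomial.degree_C_mul_X_pow_le _ _) ?_
      exact_mod_cast (mem_DD.1 hd).1
  have hq0 : q = 0 := by
    by_contra hne
    have h1 := Polynomial.card_roots' q
    have h2 : Fintype.card (GaloisField 2 t) ≤ q.natDegree := by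
      calc Fintype.card (GaloisField 2 t) = (Finset.univ : Finset (GaloisField 2 t)).card := rfl
        _ ≤ q.roots.toFinset.card := by
          apply Finset.card_le_card
          intro x _
          rw [Multiset.mem_toFinset, Polynomial.mem_roots hne]
          exact hev x
        _ ≤ q.roots.card := Multiset.toFinset_card_le _
        _ ≤ q.natDegree := h1
    rw [card_gf (by omega)] at h2
    have h3 : q.natDegree < 2 ^ t := by
      rw [Polynomial.natDegree_lt_iff_degree_lt hne]
      exact hdeg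
    omega
  have hcoef : q.coeff 3 = 1 := by
    simp only [hq, Polynomial.coeff_sub, Polynomial.finsetSum_coeff, Polynomial.coeff_X_pow,
      Polynomial.coeff_C_mul_X_pow]
    rw [Finset.sum_eq_single 0, Finset.sum_eq_zero]
    · rw [if_pos]
      · simp
      · rw [Nat.mod_eq_of_lt (by omega)]; norm_num
    · intro d hd
      rw [if_neg]
      rintro rfl
      exact h3D hd
    · intro i hi hi0
      rw [if_neg]
      have hi := Finset.mem_range.1 hi
      intro h
      obtain ⟨i, rfl⟩ : ∃ i', i = i' + 1 := ⟨i - 1, by omega⟩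
      have e2 : 2 ^ (i + 1) = 2 * 2 ^ i := by ring
      have e3 : 0 < 2 ^ i := by positivity
      rcases Nat.lt_or_ge (i + 1 + 1) t with hh | hh
      · rw [Nat.mod_eq_of_lt hh] at h
        have e4 : 2 ^ (i + 1 + 1) = 4 * 2 ^ i := by ring
        omega
      · have hit : i + 1 + 1 = t := by omega
        rw [hit, Nat.mod_self] at h
        have : 2 ^ 1 ≤ 2 ^ i := Nat.pow_le_pow_right (by norm_num) (by omega)
        omega
    · intro h
      exact absurd (Finset.mem_range.2 (by omega)) h
  rw [hq0] at hcoef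
  simp at hcoef

end

end Pool.Agent.W937.AffInv
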