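import Mathlib

/-!
# Exponents of binary weight at most two without the orbit of the exponent three
-/

namespace Pool.Agent.W937.AffInv

open Finset

lemma s2_double (n : ℕ) : (Nat.digits 2 (2 * n)).sum = (Nat.digits 2 n).sum := by
  rcases Nat.eq_zero_or_pos n with rfl | h
  · simp
  · rw [Nat.digits_def' (by norm_num) (by omega)]
    simp [Nat.mul_mod_right]

lemma s2_double_add_one (n : ℕ) :
    (Nat.digits 2 (2 * n + 1)).sum = (Nat.digits 2 n).sum + 1 := by
  rw [Nat.digits_def' (by norm_num) (by omega)]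
  have h1 : (2 * n + 1) % 2 = 1 := by omega
  have h2 : (2 * n + 1) / 2 = n := by omega
  rw [h1, h2]
  simp [add_comm]

lemma s2_pow (i : ℕ) : (Nat.digits 2 (2 ^ i)).sum = 1 := by
  induction i with
  | zero => simp
  | succ i ih => rw [pow_succ, mul_comm, s2_double, ih]

lemma s2_pow_add_pow_lt (i j : ℕ) (h : i < j) : (Nat.digits 2 (2 ^ i + 2 ^ j)).sum = 2 := by
  induction i generalizing j with
  | zero =>
    obtain ⟨j, rfl⟩ : ∃ j', j = j' + 1 := ⟨j - 1, by omega⟩
    rw [pow_zero, pow_succ, add_comm, mul_comm, s2_double_add_one, s2_pow]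
  | succ i ih =>
    obtain ⟨j, rfl⟩ : ∃ j', j = j' + 1 := ⟨j - 1, by omega⟩
    have : 2 ^ (i + 1) + 2 ^ (j + 1) = 2 * (2 ^ i + 2 ^ j) := by ring
    rw [this, s2_double, ih j (by omega)]

lemma s2_pow_add_pow (i j : ℕ) (h : i ≠ j) : (Nat.digits 2 (2 ^ i + 2 ^ j)).sum = 2 := by
  rcases lt_or_gt_of_ne h with h | h
  · exact s2_pow_add_pow_lt i j h
  · rw [add_comm]; exact s2_pow_add_pow_lt j i h

lemma shadow (d : ℕ) : ∀ e : ℕ, (∀ i : ℕ, e.testBit i = true → d.testBit i = true) →
    e ≤ d ∧ (Nat.digits 2 e).sum ≤ (Nat.digits 2 d).sum ∧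
      ((Nat.digits 2 e).sum = (Nat.digits 2 d).sum → e = d) := by
  induction d using Nat.strong_induction_on with
  | _ d ih =>
    intro e he
    have hd : d = 2 * (d / 2) + d % 2 := by omega
    have hee : e = 2 * (e / 2) + e % 2 := by omega
    have h0 := he 0
    simp only [Nat.testBit_zero, decide_eq_true_eq] at h0
    rcases Nat.eq_zero_or_pos d with rfl | hpos
    · have : e = 0 := by
        apply Nat.eq_of_testBit_eq
        intro i
        have := he i
        simp only [Nat.zero_testBit] at this ⊢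
        simpa using this
      subst this; simp
    · have hsub : ∀ i : ℕ, (e / 2).testBit i = true → (d / 2).testBit i = true := by
        intro i hi
        have := he (i + 1)
        rw [Nat.testBit_succ, Nat.testBit_succ] at this
        exact this hi
      obtain ⟨h1, h2, h3⟩ := ih (d / 2) (by omega) (e / 2) hsub
      rcases Nat.mod_two_eq_zero_or_one e with ha | ha <;>
        rcases Nat.mod_two_eq_zero_or_one d with hb | hb
      · have e1 : (Nat.digits 2 e).sum = (Nat.digits 2 (e / 2)).sum := by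
          conv_lhs => rw [hee, ha, add_zero]
          exact s2_double _
        have d1 : (Nat.digits 2 d).sum = (Nat.digits 2 (d / 2)).sum := by
          conv_lhs => rw [hd, hb, add_zero]
          exact s2_double _
        rw [e1, d1]
        exact ⟨by omega, h2, fun h => by have := h3 h; omega⟩
      · have e1 : (Nat.digits 2 e).sum = (Nat.digits 2 (e / 2)).sum := by
          conv_lhs => rw [hee, ha, add_zero]
          exact s2_double _
        have d1 : (Nat.digits 2 d).sum = (Nat.digits 2 (d / 2)).sum + 1 := by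
          conv_lhs => rw [hd, hb]
          exact s2_double_add_one _
        rw [e1, d1]
        exact ⟨by omega, by omega, fun h => by omega⟩
      · omega
      · have e1 : (Nat.digits 2 e).sum = (Nat.digits 2 (e / 2)).sum + 1 := by
          conv_lhs => rw [hee, ha]
          exact s2_double_add_one _
        have d1 : (Nat.digits 2 d).sum = (Nat.digits 2 (d / 2)).sum + 1 := by
          conv_lhs => rw [hd, hb]
          exact s2_double_add_one _
        rw [e1, d1]
        exact ⟨by omega, by omega, fun h => by have := h3 (by omega); omega⟩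

/-- the exponents of weight at most two, without the orbit of `3`. -/
def DD (t : ℕ) : Finset ℕ :=
  (Finset.range (2 ^ t)).filter
    (fun d => (Nat.digits 2 d).sum ≤ 2 ∧ ∀ i < t, d ≠ 2 ^ i + 2 ^ ((i + 1) % t))

lemma mem_DD {t d : ℕ} : d ∈ DD t ↔ d < 2 ^ t ∧ (Nat.digits 2 d).sum ≤ 2 ∧
    ∀ i < t, d ≠ 2 ^ i + 2 ^ ((i + 1) % t) := by
  simp [DD]

/-- doubling modulo `2 ^ t - 1`. -/
def dbl (t d : ℕ) : ℕ := (2 * d - 1) % (2 ^ t - 1) + 1

lemma dbl_small {t d : ℕ} (ht : 2 ≤ t) (h0 : d ≠ 0) (hd : d < 2 ^ (t - 1)) :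
    dbl t d = 2 * d := by
  have h2 : 2 ^ t = 2 * 2 ^ (t - 1) := by
    rw [← pow_succ']; congr 1; omega
  unfold dbl
  rw [Nat.mod_eq_of_lt (by omega)]
  omega

lemma dbl_large {t r : ℕ} (ht : 2 ≤ t) (hr : r < 2 ^ (t - 1)) :
    dbl t (2 ^ (t - 1) + r) = 2 * r + 1 := by
  have h2 : 2 ^ t = 2 * 2 ^ (t - 1) := by
    rw [← pow_succ']; congr 1; omega
  unfold dbl
  have h3 : 2 * (2 ^ (t - 1) + r) - 1 = (2 ^ t - 1) + 2 * r := by omega
  rw [h3, Nat.add_mod_left, Nat.mod_eq_of_lt (by omega)]

lemma DD_dbl {t : ℕ} (ht : 3 ≤ t) {d : ℕ} (hd : d ∈ DD t) (h0 : d ≠ 0) : dbl t d ∈ DD t := by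
  obtain ⟨h1, h2, h3⟩ := mem_DD.1 hd
  have hpow : 2 ^ t = 2 * 2 ^ (t - 1) := by
    rw [← pow_succ']; congr 1; omega
  rcases lt_or_ge d (2 ^ (t - 1)) with hlt | hge
  · rw [dbl_small (by omega) h0 hlt]
    refine mem_DD.2 ⟨by omega, by rw [s2_double]; exact h2, ?_⟩
    intro i hi he
    rcases Nat.eq_zero_or_pos i with rfl | hi0
    · have : (0 + 1) % t = 1 := Nat.mod_eq_of_lt (by omega)
      rw [this] at he; omega
    · rcases Nat.lt_or_ge (i + 1) t with h | h
      · rw [Nat.mod_eq_of_lt h] at he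
        obtain ⟨i, rfl⟩ : ∃ i', i = i' + 1 := ⟨i - 1, by omega⟩
        apply h3 i (by omega)
        rw [Nat.mod_eq_of_lt (by omega)]
        have e1 : 2 ^ (i + 1 + 1) = 2 * 2 ^ (i + 1) := by ring
        have e2 : 2 ^ (i + 1) = 2 * 2 ^ i := by ring
        omega
      · have hit : i + 1 = t := by omega
        rw [hit, Nat.mod_self] at he
        obtain ⟨i, rfl⟩ : ∃ i', i = i' + 1 := ⟨i - 1, by omega⟩
        have e2 : 2 ^ (i + 1) = 2 * 2 ^ i := by ring
        omega
  · obtain ⟨r, rfl⟩ : ∃ r, d = 2 ^ (t - 1) + r := ⟨d - 2 ^ (t - 1), by omega⟩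
    have hr : r < 2 ^ (t - 1) := by omega
    rw [dbl_large (by omega) hr]
    have hs : ∀ m r : ℕ, r < 2 ^ m →
        (Nat.digits 2 (2 ^ m + r)).sum = (Nat.digits 2 r).sum + 1 := by
      intro m
      induction m with
      | zero => intro r hr; have : r = 0 := by simpa using hr
                subst this; simp
      | succ m ih =>
        intro r hr
        have hr2 : r / 2 < 2 ^ m := by
          rw [pow_succ] at hr; omega
        have hrr : r = 2 * (r / 2) + r % 2 := by omega
        rcases Nat.mod_two_eq_zero_or_one r with hb | hb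
        · have e1 : 2 ^ (m + 1) + r = 2 * (2 ^ m + r / 2) := by
            rw [pow_succ]; omega
          rw [e1, s2_double, ih _ hr2]
          conv_rhs => rw [hrr, hb, add_zero, s2_double]
        · have e1 : 2 ^ (m + 1) + r = 2 * (2 ^ m + r / 2) + 1 := by
            rw [pow_succ]; omega
          rw [e1, s2_double_add_one, ih _ hr2]
          conv_rhs => rw [hrr, hb, s2_double_add_one]
    refine mem_DD.2 ⟨by omega, by rw [s2_double_add_one, ← hs _ _ hr]; exact h2, ?_⟩
    intro i hi he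
    rcases Nat.eq_zero_or_pos i with rfl | hi0
    · have : (0 + 1) % t = 1 := Nat.mod_eq_of_lt (by omega)
      rw [this] at he
      have hr1 : r = 1 := by omega
      apply h3 (t - 1) (by omega)
      have : (t - 1 + 1) % t = 0 := by
        rw [Nat.sub_add_cancel (by omega), Nat.mod_self]
      rw [this, hr1]; simp
    · obtain ⟨i, rfl⟩ : ∃ i', i = i' + 1 := ⟨i - 1, by omega⟩
      have e2 : 2 ^ (i + 1) = 2 * 2 ^ i := by ring
      rcases Nat.lt_or_ge (i + 1 + 1) t with h | h
      · rw [Nat.mod_eq_of_lt h] at he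
        have e1 : 2 ^ (i + 1 + 1) = 2 * 2 ^ (i + 1) := by ring
        omega
      · have hit : i + 1 + 1 = t := by omega
        rw [hit, Nat.mod_self] at he
        have hr1 : r = 2 ^ i := by omega
        apply h3 i (by omega)
        rw [Nat.mod_eq_of_lt (by omega), hr1]
        have : t - 1 = i + 1 := by omega
        rw [this, add_comm]

lemma DD_shadow {t : ℕ} (ht : 3 ≤ t) {d : ℕ} (hd : d ∈ DD t) (e : ℕ)
    (he : ∀ i : ℕ, e.testBit i = true → d.testBit i = true) : e ∈ DD t := by
  obtain ⟨h1, h2, h3⟩ := mem_DD.1 hd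
  obtain ⟨a, b, c⟩ := shadow d e he
  refine mem_DD.2 ⟨by omega, by omega, ?_⟩
  intro i hi hh
  have hne : i ≠ (i + 1) % t := by
    rcases Nat.lt_or_ge (i + 1) t with h | h
    · rw [Nat.mod_eq_of_lt h]; omega
    · have hit : i + 1 = t := by omega
      rw [hit, Nat.mod_self]; omega
  have hs : (Nat.digits 2 e).sum = 2 := by rw [hh]; exact s2_pow_add_pow _ _ hne
  have := c (by omega)
  subst this
  exact h3 i hi hh

lemma one_mem_DD {t : ℕ} (ht : 3 ≤ t) : 1 ∈ DD t := by
  refine mem_DD.2 ⟨Nat.one_lt_two_pow (by omega), by simp, ?_⟩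
  intro i _ h
  have h1 : 0 < 2 ^ i := by positivity
  have h2 : 0 < 2 ^ ((i + 1) % t) := by positivity
  omega

lemma quad_mem_DD {t j : ℕ} (ht : 3 ≤ t) (h2 : 2 ≤ j) (hj : j + 2 ≤ t) :
    1 + 2 ^ j ∈ DD t := by
  have hp : 2 ^ j < 2 ^ t := Nat.pow_lt_pow_right (by norm_num) (by omega)
  have hp4 : 2 ^ 2 ≤ 2 ^ j := Nat.pow_le_pow_right (by norm_num) h2
  have hev : 2 ^ j = 2 * 2 ^ (j - 1) := by
    rw [← pow_succ']; congr 1; omega
  have hevt : 2 ^ t = 2 * 2 ^ (t - 1) := by
    rw [← pow_succ']; congr 1; omega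
  refine mem_DD.2 ⟨by omega, ?_, ?_⟩
  · have := s2_pow_add_pow 0 j (by omega)
    rw [pow_zero] at this; omega
  · intro i hi he
    rcases Nat.eq_zero_or_pos i with rfl | hi0
    · have : (0 + 1) % t = 1 := Nat.mod_eq_of_lt (by omega)
      rw [this] at he; omega
    · obtain ⟨i, rfl⟩ : ∃ i', i = i' + 1 := ⟨i - 1, by omega⟩
      have e2 : 2 ^ (i + 1) = 2 * 2 ^ i := by ring
      rcases Nat.lt_or_ge (i + 1 + 1) t with h | h
      · rw [Nat.mod_eq_of_lt h] at he
        have e1 : 2 ^ (i + 1 + 1) = 2 * 2 ^ (i + 1) := by ring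
        omega
      · have hit : i + 1 + 1 = t := by omega
        rw [hit, Nat.mod_self] at he
        have : 2 ^ (i + 1) = 2 ^ j := by omega
        have := Nat.pow_right_injective (le_refl 2) this
        omega

end Pool.Agent.W937.AffInv
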