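import Mathlib

/-!
# Single-orbit versus general local characterizations: definitions and the rank lower bound
-/

namespace Pool.Agent.W937.SingleOrbit

open Finset

/-- A `k`-local constraint for functions `K → F`: points `α₁, …, α_k` of `K` and a proper
subset `S` of `F ^ k`. -/
structure Constraint (F K : Type) (k : ℕ) where
  /-- the points `α₁, …, α_k` -/
  pts : Fin k → K
  /-- the set `S` of allowed value vectors -/
  allowed : Set (Fin k → F)
  /-- `S` is a proper subset of `F ^ k` -/
  proper : allowed ≠ Set.univ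

/-- `f` satisfies the constraint `C = (α₁, …, α_k; S)` if `(f α₁, …, f α_k) ∈ S`. -/
def Constraint.Sat {F K : Type} {k : ℕ} (C : Constraint F K k) (f : K → F) : Prop :=
  (fun i => f (C.pts i)) ∈ C.allowed

/-- `C ∘ π` for the affine map `π x = a * x + b`. -/
def Constraint.comp {F K : Type} [Field K] {k : ℕ} (C : Constraint F K k) (a b : K) :
    Constraint F K k where
  pts := fun i => a * C.pts i + b
  allowed := C.allowed
  proper := C.proper

/-- An `F`-linear property `P` of functions `K → F` is affine-invariant if `f ∈ P` implies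
`x ↦ f (a * x + b) ∈ P` for all `a ≠ 0` and `b` in `K`. -/
def AffineInvariant {F K : Type} [Field F] [Field K] (P : Submodule F (K → F)) : Prop :=
  ∀ f ∈ P, ∀ a b : K, a ≠ 0 → (fun x => f (a * x + b)) ∈ P

/-- `P` has a `k`-local characterization: a set of `k`-local constraints such that `f ∈ P`
exactly when `f` satisfies all of them. -/
def LocallyCharacterized {F K : Type} [Field F] [Field K] (k : ℕ) (P : Submodule F (K → F)) :
    Prop :=
  ∃ 𝒞 : Set (Constraint F K k), ∀ f : K → F, f ∈ P ↔ ∀ C ∈ 𝒞, C.Sat f

/-- `P` has a `k`-single orbit characterization: a single `k`-local constraint `C` such that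
`f ∈ P` exactly when `f` satisfies `C ∘ π` for all affine maps `π x = a * x + b`, `a ≠ 0`. -/
def SingleOrbitCharacterized {F K : Type} [Field F] [Field K] (k : ℕ)
    (P : Submodule F (K → F)) : Prop :=
  ∃ C : Constraint F K k, ∀ f : K → F, f ∈ P ↔ ∀ a b : K, a ≠ 0 → (C.comp a b).Sat f

/-- `k'(P)`: the least `k'` such that `P` has a `k'`-single orbit characterization. -/
noncomputable def kPrime {F K : Type} [Field F] [Field K] (P : Submodule F (K → F)) : ℕ :=
  sInf {k : ℕ | SingleOrbitCharacterized k P}

/-! ## The tensor of a linear functional -/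

section tensor

variable {F K : Type} [Field F] [Field K] [Algebra F K] {T : Type} [Fintype T]

/-- the coefficient at `g` of the tensor `∑ κ_l z_l ⊗ z_l`. -/
def tens (κ : T → F) (z : T → K) (g : K ≃ₐ[F] K) : K :=
  ∑ l, algebraMap F K (κ l) * (z l * g (z l))

/-- the quadratic function `x ↦ Tr (c x g(x))`. -/
noncomputable def quad (g : K ≃ₐ[F] K) (c : K) (x : K) : F :=
  Algebra.trace F K (c * (x * g x))

/-- the linear function `x ↦ Tr (c x)`. -/
noncomputable def lin (c : K) (x : K) : F := Algebra.trace F K (c * x)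

lemma sum_smul_trace (κ : T → F) (w : T → K) :
    ∑ l, κ l * Algebra.trace F K (w l) = Algebra.trace F K (∑ l, algebraMap F K (κ l) * w l) := by
  rw [map_sum]
  refine Finset.sum_congr rfl fun l _ => ?_
  rw [← Algebra.smul_def, map_smul, smul_eq_mul]

lemma sum_quad (κ : T → F) (z : T → K) (h0 : ∑ l, κ l = 0)
    (h1 : ∑ l, algebraMap F K (κ l) * z l = 0) (g : K ≃ₐ[F] K) (c a b : K) :
    ∑ l, κ l * quad g c (a * z l + b) = Algebra.trace F K (c * (a * g a) * tens κ z g) := by
  unfold quad
  rw [sum_smul_trace]
  congr 1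
  have h0' : ∑ l, algebraMap F K (κ l) = 0 := by rw [← map_sum, h0, map_zero]
  have h2 : ∑ l, algebraMap F K (κ l) * g (z l) = 0 := by
    have := congrArg g h1
    rw [map_sum, map_zero] at this
    simpa using this
  have : ∀ l, algebraMap F K (κ l) * (c * ((a * z l + b) * g (a * z l + b))) =
      c * (a * g a) * (algebraMap F K (κ l) * (z l * g (z l))) +
      c * a * g b * (algebraMap F K (κ l) * z l) +
      c * b * g a * (algebraMap F K (κ l) * g (z l)) +
      c * b * g b * algebraMap F K (κ l) := by
    intro l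
    rw [map_add, map_mul]
    ring
  rw [Finset.sum_congr rfl fun l _ => this l]
  rw [Finset.sum_add_distrib, Finset.sum_add_distrib, Finset.sum_add_distrib,
    ← Finset.mul_sum, ← Finset.mul_sum, ← Finset.mul_sum, ← Finset.mul_sum, h0', h1, h2]
  unfold tens
  ring

lemma sum_lin (κ : T → F) (z : T → K) (h0 : ∑ l, κ l = 0)
    (h1 : ∑ l, algebraMap F K (κ l) * z l = 0) (c a b : K) :
    ∑ l, κ l * lin c (a * z l + b) = 0 := by
  unfold lin
  rw [sum_smul_trace]
  have h0' : ∑ l, algebraMap F K (κ l) = 0 := by rw [← map_sum, h0, map_zero]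
  have : ∀ l, algebraMap F K (κ l) * (c * (a * z l + b)) =
      c * a * (algebraMap F K (κ l) * z l) + c * b * algebraMap F K (κ l) := by
    intro l; ring
  rw [Finset.sum_congr rfl fun l _ => this l, Finset.sum_add_distrib, ← Finset.mul_sum,
    ← Finset.mul_sum, h0', h1]
  simp

lemma eq_zero_of_trace [Finite K] (z : K) (h : ∀ c, Algebra.trace F K (c * z) = 0) : z = 0 := by
  have : Finite F := Finite.of_injective _ (algebraMap F K).injective
  have : Module.Finite F K := Module.Finite.of_finite
  have htr := (traceForm_nondegenerate F K).1 z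
  by_contra hz
  apply hz
  apply htr
  intro y
  rw [Algebra.traceForm_apply, mul_comm]
  exact h y

end tensor

/-! ## The property cut out by a family of functionals -/

section property

variable {F K : Type} [Field F] [Field K] [Algebra F K] {ι T : Type} [Fintype T]

/-- The functions all of whose affine pull-backs are annihilated by the functionals
`f ↦ ∑ κ_l f(z_l)` of the family. -/
def prop (κ : ι → T → F) (z : ι → T → K) : Submodule F (K → F) where
  carrier := {f | ∀ i a b, ∑ l, κ i l * f (a * z i l + b) = 0}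
  add_mem' := by
    intro f g hf hg i a b
    simp only [Pi.add_apply, mul_add, Finset.sum_add_distrib]
    rw [hf i a b, hg i a b, add_zero]
  zero_mem' := by
    intro i a b
    simp
  smul_mem' := by
    intro c f hf i a b
    have : ∀ l, κ i l * (c • f) (a * z i l + b) = c * (κ i l * f (a * z i l + b)) := by
      intro l
      simp only [Pi.smul_apply, smul_eq_mul]
      ring
    rw [Finset.sum_congr rfl fun l _ => this l, ← Finset.mul_sum, hf i a b, mul_zero]

omit [Algebra F K] in
lemma mem_prop {κ : ι → T → F} {z : ι → T → K} {f : K → F} :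
    f ∈ prop κ z ↔ ∀ i a b, ∑ l, κ i l * f (a * z i l + b) = 0 := Iff.rfl

omit [Algebra F K] in
lemma prop_affineInvariant (κ : ι → T → F) (z : ι → T → K) : AffineInvariant (prop κ z) := by
  intro f hf a b _ i a' b'
  have := hf i (a * a') (a * b' + b)
  convert this using 4 with l
  ring

omit [Algebra F K] in
lemma prop_locallyCharacterized (κ : ι → T → F) (z : ι → T → K) (hne : ∀ i, ∃ l, κ i l ≠ 0)
    {k : ℕ} (hk : Fintype.card T = k) : LocallyCharacterized k (prop κ z) := by
  classical
  let e : T ≃ Fin k := Fintype.equivFinOfCardEq hk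
  have hprop : ∀ i, {v : Fin k → F | ∑ l, κ i l * v (e l) = 0} ≠ Set.univ := by
    intro i h
    obtain ⟨l, hl⟩ := hne i
    have : (Pi.single (e l) 1 : Fin k → F) ∈ {v : Fin k → F | ∑ l, κ i l * v (e l) = 0} := by
      rw [h]; trivial
    simp only [Set.mem_ofPred_eq] at this
    rw [Finset.sum_eq_single l] at this
    · simp at this
      exact hl this
    · intro m _ hm
      rw [Pi.single_eq_of_ne (fun h => hm (e.injective h)), mul_zero]
    · intro h; exact absurd (Finset.mem_univ l) h
  refine ⟨{C | ∃ i a b, C = ⟨fun m => a * z i (e.symm m) + b, _, hprop i⟩}, fun f => ?_⟩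
  rw [mem_prop]
  constructor
  · rintro h C ⟨i, a, b, rfl⟩
    have := h i a b
    simp only [Constraint.Sat, Set.mem_ofPred_eq, Equiv.symm_apply_apply]
    exact this
  · intro h i a b
    have := h _ ⟨i, a, b, rfl⟩
    simp only [Constraint.Sat, Set.mem_ofPred_eq, Equiv.symm_apply_apply] at this
    exact this

lemma quad_mem_prop {κ : ι → T → F} {z : ι → T → K} (h0 : ∀ i, ∑ l, κ i l = 0)
    (h1 : ∀ i, ∑ l, algebraMap F K (κ i l) * z i l = 0) {g : K ≃ₐ[F] K}
    (hg : ∀ i, tens (κ i) (z i) g = 0) (c : K) : quad g c ∈ prop κ z := by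
  intro i a b
  rw [sum_quad (κ i) (z i) (h0 i) (h1 i), hg i, mul_zero, map_zero]

lemma exists_quad_notMem_prop [Finite K] {κ : ι → T → F} {z : ι → T → K}
    (h0 : ∀ i, ∑ l, κ i l = 0)
    (h1 : ∀ i, ∑ l, algebraMap F K (κ i l) * z i l = 0) {g : K ≃ₐ[F] K} {i : ι}
    (hg : tens (κ i) (z i) g ≠ 0) : ∃ c, quad g c ∉ prop κ z := by
  by_contra hcon
  push Not at hcon
  apply hg
  apply eq_zero_of_trace (F := F)
  intro c
  have := hcon c i 1 0
  rw [sum_quad (κ i) (z i) (h0 i) (h1 i)] at this
  simpa using this

omit [Algebra F K] in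
lemma const_mem_prop {κ : ι → T → F} {z : ι → T → K} (h0 : ∀ i, ∑ l, κ i l = 0) (c : F) :
    (fun _ => c) ∈ prop κ z := by
  intro i a b
  rw [← Finset.sum_mul, h0 i, zero_mul]

lemma lin_mem_prop {κ : ι → T → F} {z : ι → T → K} (h0 : ∀ i, ∑ l, κ i l = 0)
    (h1 : ∀ i, ∑ l, algebraMap F K (κ i l) * z i l = 0) (c : K) : lin c ∈ prop κ z := by
  intro i a b
  exact sum_lin (κ i) (z i) (h0 i) (h1 i) c a b

/-- **Rank lower bound.** Suppose there are automorphisms `G i`, `H j`, indexed by a finite
linearly ordered set, such that all tensors of the family vanish at `(G i)⁻¹ * H j` for `i < j`,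
while for every `j` some tensor of the family does not vanish at `(G j)⁻¹ * H j`. Then every
single orbit characterization has locality at least the number of indices. -/
theorem card_le_of_singleOrbit [Finite K] {κ : ι → T → F} {z : ι → T → K}
    (h0 : ∀ i, ∑ l, κ i l = 0)
    (h1 : ∀ i, ∑ l, algebraMap F K (κ i l) * z i l = 0)
    {X : Type} [Fintype X] [LinearOrder X] (G H : X → (K ≃ₐ[F] K))
    (hlt : ∀ x y, x < y → ∀ i, tens (κ i) (z i) ((G x)⁻¹ * H y) = 0)
    (hdiag : ∀ x, ∃ i, tens (κ i) (z i) ((G x)⁻¹ * H x) ≠ 0)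
    {k : ℕ} (hk : SingleOrbitCharacterized k (prop κ z)) : Fintype.card X ≤ k := by
  classical
  obtain ⟨C, hC⟩ := hk
  -- the restriction of the property to the points of the constraint
  let res : (K → F) →ₗ[F] (Fin k → F) := LinearMap.funLeft F F C.pts
  let V : Submodule F (Fin k → F) := (prop κ z).map res
  have hV : ∀ v ∈ V, v ∈ C.allowed := by
    rintro v ⟨f, hf, rfl⟩
    have := (hC f).1 hf 1 0 one_ne_zero
    simp only [Constraint.Sat, Constraint.comp, one_mul, add_zero] at this
    exact this
  have key : ∀ x : X, ∃ μ : Fin k → F,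
      (∀ f ∈ prop κ z, ∑ l, μ l * f (C.pts l) = 0) ∧
      tens μ C.pts ((G x)⁻¹ * H x) ≠ 0 := by
    intro x
    obtain ⟨i, hi⟩ := hdiag x
    obtain ⟨c, hc⟩ := exists_quad_notMem_prop h0 h1 hi
    have hnot := mt (hC _).2 hc
    push Not at hnot
    obtain ⟨a, b, ha, hab⟩ := hnot
    have hv : (fun l => quad ((G x)⁻¹ * H x) c (a * C.pts l + b)) ∉ V := by
      intro h
      exact hab (hV _ h)
    obtain ⟨φ, hφ, hker⟩ := Submodule.exists_le_ker_of_notMem hv
    have hφsum : ∀ v : Fin k → F, φ v = ∑ l, φ (Pi.single l 1) * v l := by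
      intro v
      conv_lhs => rw [pi_eq_sum_univ' v]
      rw [map_sum]
      refine Finset.sum_congr rfl fun l _ => ?_
      rw [map_smul, smul_eq_mul, mul_comm]
    have hann : ∀ f ∈ prop κ z, ∑ l, φ (Pi.single l 1) * f (C.pts l) = 0 := by
      intro f hf
      have h2 := hφsum (res f)
      have h3 : φ (res f) = 0 := hker ⟨f, hf, rfl⟩
      rw [h3] at h2
      exact h2.symm
    refine ⟨fun l => φ (Pi.single l 1), hann, ?_⟩
    intro hzero
    apply hφ
    rw [hφsum]
    have hs0 : ∑ l, φ (Pi.single l 1) = 0 := by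
      have := hann _ (const_mem_prop (z := z) h0 1)
      simpa using this
    have hs1 : ∑ l, algebraMap F K (φ (Pi.single l 1)) * C.pts l = 0 := by
      apply eq_zero_of_trace (F := F)
      intro c'
      have := hann _ (lin_mem_prop h0 h1 c')
      unfold lin at this
      rw [sum_smul_trace] at this
      rw [← this, Finset.mul_sum]
      congr 1
      refine Finset.sum_congr rfl fun l _ => ?_
      ring
    rw [sum_quad _ _ hs0 hs1, hzero, mul_zero, map_zero]
  choose μ hμ hμne using key
  -- tensors of the annihilating functionals vanish where the family does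
  have hvan : ∀ x (g : K ≃ₐ[F] K), (∀ i, tens (κ i) (z i) g = 0) → tens (μ x) C.pts g = 0 := by
    intro x g hg
    apply eq_zero_of_trace (F := F)
    intro c
    have := hμ x _ (quad_mem_prop h0 h1 hg c)
    unfold quad at this
    rw [sum_smul_trace] at this
    rw [← this]
    unfold tens
    rw [Finset.mul_sum]
    congr 1
    refine Finset.sum_congr rfl fun l _ => ?_
    ring
  -- a triangular matrix of small rank
  let A : Matrix X (Fin k) K := fun y l => algebraMap F K (μ y l) * H y (C.pts l)
  let B : Matrix (Fin k) X K := fun l x => G x (C.pts l)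
  have hAB : ∀ y x, (A * B) y x = G x (tens (μ y) C.pts ((G x)⁻¹ * H y)) := by
    intro y x
    rw [Matrix.mul_apply]
    unfold tens
    rw [map_sum]
    refine Finset.sum_congr rfl fun l _ => ?_
    rw [map_mul, map_mul, AlgEquiv.commutes, AlgEquiv.mul_apply]
    have : G x ((G x)⁻¹ (H y (C.pts l))) = H y (C.pts l) := by
      rw [← AlgEquiv.mul_apply, mul_inv_cancel, AlgEquiv.one_apply]
    rw [this]
    simp only [A, B]
    ring
  have htri : (A * B).BlockTriangular id := by
    intro y x hxy
    rw [hAB, hvan y _ (hlt x y hxy), map_zero]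
  have hdet : (A * B).det ≠ 0 := by
    rw [Matrix.det_of_isUpperTriangular htri, Finset.prod_ne_zero_iff]
    intro x _
    rw [hAB]
    exact (map_ne_zero_iff _ (G x).injective).2 (hμne x)
  have hunit : IsUnit (A * B) := (Matrix.isUnit_iff_isUnit_det _).2 hdet.isUnit
  calc Fintype.card X = (A * B).rank := (Matrix.rank_of_isUnit _ hunit).symm
    _ ≤ A.rank := Matrix.rank_mul_le_left A B
    _ ≤ Fintype.card (Fin k) := A.rank_le_card_width
    _ = k := Fintype.card_fin k

omit [Algebra F K] in
/-- For a finite field `K` every proper affine-invariant property has a single orbit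
characterization, on all points of `K`. -/
lemma exists_singleOrbit [Finite K] [Finite F] (P : Submodule F (K → F)) (hP : AffineInvariant P)
    (hne : P ≠ ⊤) : SingleOrbitCharacterized (Nat.card K) P := by
  classical
  let e : Fin (Nat.card K) ≃ K := (Finite.equivFin K).symm
  refine ⟨⟨e, {v | (fun x => v (e.symm x)) ∈ P}, ?_⟩, fun f => ⟨?_, ?_⟩⟩
  · intro h
    apply hne
    rw [Submodule.eq_top_iff']
    intro f
    have : (fun m => f (e m)) ∈ {v : Fin (Nat.card K) → F | (fun x => v (e.symm x)) ∈ P} := by
      rw [h]; trivial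
    simpa using this
  · intro hf a b ha
    have := hP f hf a b ha
    simpa [Constraint.Sat, Constraint.comp] using this
  · intro h
    have := h 1 0 one_ne_zero
    simpa [Constraint.Sat, Constraint.comp] using this

omit [Algebra F K] in
lemma singleOrbit_kPrime [Finite K] [Finite F] (P : Submodule F (K → F)) (hP : AffineInvariant P)
    (hne : P ≠ ⊤) : SingleOrbitCharacterized (kPrime P) P :=
  Nat.sInf_mem (s := {k : ℕ | SingleOrbitCharacterized k P}) ⟨_, exists_singleOrbit P hP hne⟩

end property

end Pool.Agent.W937.SingleOrbit
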