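import Pool.Agent.W937.SingleOrbitA

/-!
# Single-orbit versus general local characterizations: product tensors
-/

namespace Pool.Agent.W937.SingleOrbit

open Finset

section product

variable {F K : Type} [Field F] [Field K] [Algebra F K]

/-- coefficients of the product functional -/
def kap (F : Type) [Field F] (s : ℕ) (p : Finset (Fin s) × Fin 3) : F :=
  (-1) ^ p.1.card * (if p.2 = 0 then 1 else -1)

/-- points of the product functional -/
def pnt (s : ℕ) (lam : Fin (s + 1) → K) (p : Finset (Fin s) × Fin 3) : K :=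
  if p.2 = 0 then (∏ v ∈ p.1, lam v.succ) + lam 0 * ∏ v ∈ univ \ p.1, lam v.succ
  else if p.2 = 1 then ∏ v ∈ p.1, lam v.succ
  else lam 0 * ∏ v ∈ univ \ p.1, lam v.succ

lemma sum_prod3 {M : Type} [AddCommMonoid M] {s : ℕ} (f : Finset (Fin s) × Fin 3 → M) :
    ∑ p, f p = ∑ A : Finset (Fin s), (f (A, 0) + f (A, 1) + f (A, 2)) := by
  rw [Fintype.sum_prod_type]
  refine Finset.sum_congr rfl fun A _ => ?_
  rw [Fin.sum_univ_three]

lemma sum_neg_one_card {R : Type} [Ring R] {s : ℕ} (hs : 0 < s) :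
    ∑ A : Finset (Fin s), (-1 : R) ^ A.card = 0 := by
  have h1 : (Finset.univ : Finset (Finset (Fin s))) = (Finset.univ : Finset (Fin s)).powerset := by
    rw [Finset.powerset_univ]
  have h := Finset.sum_powerset_neg_one_pow_card_of_nonempty
    (x := (Finset.univ : Finset (Fin s))) ⟨⟨0, hs⟩, Finset.mem_univ _⟩
  rw [h1]
  have h2 := congrArg (Int.cast : ℤ → R) h
  push_cast at h2
  exact h2

lemma kap_sum {s : ℕ} (hs : 0 < s) : ∑ p, kap F s p = 0 := by
  rw [sum_prod3]
  have : ∀ A : Finset (Fin s), kap F s (A, 0) + kap F s (A, 1) + kap F s (A, 2) =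
      - (-1 : F) ^ A.card := by
    intro A
    simp [kap]
  rw [Finset.sum_congr rfl fun A _ => this A, Finset.sum_neg_distrib, sum_neg_one_card hs, neg_zero]

lemma kap_sum_pnt {s : ℕ} (lam : Fin (s + 1) → K) :
    ∑ p, algebraMap F K (kap F s p) * pnt s lam p = 0 := by
  rw [sum_prod3]
  refine Finset.sum_eq_zero fun A _ => ?_
  simp [kap, pnt]
  ring

lemma kap_ne {s : ℕ} : ∃ p, kap F s p ≠ 0 := ⟨(∅, 0), by simp [kap]⟩

lemma tens_prod {s : ℕ} (hs : Odd s) (lam : Fin (s + 1) → K) (g : K ≃ₐ[F] K) :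
    tens (kap F s) (pnt s lam) g = ∏ v, (g (lam v) - lam v) := by
  unfold tens
  rw [sum_prod3]
  have h1 : ∀ A : Finset (Fin s),
      algebraMap F K (kap F s (A, 0)) * (pnt s lam (A, 0) * g (pnt s lam (A, 0))) +
      algebraMap F K (kap F s (A, 1)) * (pnt s lam (A, 1) * g (pnt s lam (A, 1))) +
      algebraMap F K (kap F s (A, 2)) * (pnt s lam (A, 2) * g (pnt s lam (A, 2))) =
      g (lam 0) * ((∏ v ∈ A, (-lam v.succ)) * ∏ v ∈ univ \ A, g (lam v.succ)) +
      lam 0 * ((∏ v ∈ A, (- g (lam v.succ))) * ∏ v ∈ univ \ A, lam v.succ) := by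
    intro A
    simp only [kap, pnt, Finset.prod_neg, map_mul, map_add, map_prod]
    simp
    ring
  rw [Finset.sum_congr rfl fun A _ => h1 A, Finset.sum_add_distrib, ← Finset.mul_sum,
    ← Finset.mul_sum]
  have h2 : ∀ f f' : Fin s → K, ∑ A : Finset (Fin s), (∏ v ∈ A, f v) * ∏ v ∈ univ \ A, f' v =
      ∏ v, (f v + f' v) := by
    intro f f'
    rw [Finset.prod_add, Finset.powerset_univ]
  rw [h2, h2, Fin.prod_univ_succ]
  have h3 : ∏ v : Fin s, (-g (lam v.succ) + lam v.succ) =
      - ∏ v : Fin s, (-lam v.succ + g (lam v.succ)) := by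
    have : ∀ v : Fin s, (-g (lam v.succ) + lam v.succ) =
        (-1) * (-lam v.succ + g (lam v.succ)) := by intro v; ring
    rw [Finset.prod_congr rfl fun v _ => this v, Finset.prod_mul_distrib]
    simp [hs.neg_one_pow]
  rw [h3]
  have h4 : ∏ v : Fin s, (-lam v.succ + g (lam v.succ)) =
      ∏ v : Fin s, (g (lam v.succ) - lam v.succ) :=
    Finset.prod_congr rfl fun v _ => by ring
  rw [h4]
  ring

end product

end Pool.Agent.W937.SingleOrbit
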