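import Pool.Agent.W937.SingleOrbitB

/-!
# Single-orbit versus general local characterizations: Frobenius powers and the arithmetic
-/

namespace Pool.Agent.W937.SingleOrbit

open Finset

lemma pow_sub_one_dvd_iff {q d n : ℕ} (hq : 2 ≤ q) : q ^ d - 1 ∣ q ^ n - 1 ↔ d ∣ n := by
  constructor
  · intro h
    have h1 := Nat.gcd_eq_left h
    rw [Nat.pow_sub_one_gcd_pow_sub_one] at h1
    have h2 : q ^ Nat.gcd d n = q ^ d := by
      have ha : 1 ≤ q ^ Nat.gcd d n := Nat.one_le_pow _ _ (by omega)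
      have hb : 1 ≤ q ^ d := Nat.one_le_pow _ _ (by omega)
      omega
    have h3 := Nat.pow_right_injective hq h2
    rw [← h3]
    exact Nat.gcd_dvd_right d n
  · rintro ⟨c, rfl⟩
    exact Nat.pow_sub_one_dvd_pow_sub_one _ ⟨c, rfl⟩

section gen

variable {F K : Type} [Field F] [Field K] [Finite F] [Finite K] [Algebra F K]

omit [Finite F] [Finite K] in
lemma frob_pow (φ : K ≃ₐ[F] K) (hφ : ∀ x, φ x = x ^ Nat.card F) (n : ℕ) (x : K) :
    (φ ^ n) x = x ^ (Nat.card F) ^ n := by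
  induction n generalizing x with
  | zero => simp
  | succ n ih => rw [pow_succ, AlgEquiv.mul_apply, hφ, ih, ← pow_mul, pow_succ, mul_comm]

lemma exists_gen (φ : K ≃ₐ[F] K) (hφ : ∀ x, φ x = x ^ Nat.card F) {d : ℕ}
    (hd : d ∣ Module.finrank F K) : ∃ z : K, ∀ e : ℤ, (φ ^ e) z = z ↔ (d : ℤ) ∣ e := by
  have hq : 2 ≤ Nat.card F := Finite.one_lt_card
  have : Module.Finite F K := Module.Finite.of_finite
  have hcard : Nat.card K = Nat.card F ^ Module.finrank F K := Module.natCard_eq_pow_finrank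
  obtain ⟨ζ, hζ⟩ := IsCyclic.exists_generator (α := Kˣ)
  have hord : orderOf ζ = Nat.card F ^ Module.finrank F K - 1 := by
    rw [orderOf_eq_card_of_forall_mem_zpowers hζ, Nat.card_units, hcard]
  have ht : 0 < Module.finrank F K := Module.finrank_pos
  have hd0 : 0 < d := Nat.pos_of_dvd_of_pos hd ht
  have hdvd : Nat.card F ^ d - 1 ∣ Nat.card F ^ Module.finrank F K - 1 :=
    (pow_sub_one_dvd_iff hq).2 hd
  obtain ⟨m, hm⟩ := hdvd
  have hpos : 0 < Nat.card F ^ Module.finrank F K - 1 := by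
    have : Nat.card F ^ 1 ≤ Nat.card F ^ Module.finrank F K :=
      Nat.pow_le_pow_right (by omega) ht
    rw [pow_one] at this
    omega
  have hm0 : 0 < m := by
    rcases Nat.eq_zero_or_pos m with h | h
    · rw [h, mul_zero] at hm; omega
    · exact h
  have hordm : orderOf (ζ ^ m) = Nat.card F ^ d - 1 := by
    rw [orderOf_pow_of_dvd hm0.ne' (by rw [hord, hm]; exact dvd_mul_left _ _), hord, hm]
    exact Nat.mul_div_cancel _ hm0
  refine ⟨((ζ ^ m : Kˣ) : K), ?_⟩
  have hnat : ∀ n : ℕ, (φ ^ n) ((ζ ^ m : Kˣ) : K) = ((ζ ^ m : Kˣ) : K) ↔ d ∣ n := by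
    intro n
    rw [frob_pow φ hφ, ← pow_sub_one_dvd_iff hq, ← hordm, orderOf_dvd_iff_pow_eq_one]
    have h1 : 1 ≤ Nat.card F ^ n := Nat.one_le_pow _ _ (by omega)
    constructor
    · intro h
      have h2 : (ζ ^ m) ^ (Nat.card F ^ n) = ζ ^ m := by
        apply Units.ext
        rw [Units.val_pow_eq_pow_val]
        exact h
      have h3 : (ζ ^ m) ^ (Nat.card F ^ n - 1) * ζ ^ m = 1 * ζ ^ m := by
        rw [one_mul, ← pow_succ, Nat.sub_add_cancel h1, h2]
      exact mul_right_cancel h3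
    · intro h
      have h3 : (ζ ^ m) ^ (Nat.card F ^ n) = ζ ^ m := by
        calc (ζ ^ m) ^ (Nat.card F ^ n) = (ζ ^ m) ^ (Nat.card F ^ n - 1) * ζ ^ m := by
              rw [← pow_succ, Nat.sub_add_cancel h1]
          _ = ζ ^ m := by rw [h, one_mul]
      have h4 := congrArg (Units.val) h3
      rw [Units.val_pow_eq_pow_val] at h4
      exact h4
  intro e
  rcases Int.eq_nat_or_neg e with ⟨n, rfl | rfl⟩
  · rw [zpow_natCast, hnat, Int.natCast_dvd_natCast]
  · rw [zpow_neg, zpow_natCast, dvd_neg, Int.natCast_dvd_natCast, ← hnat]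
    constructor
    · intro h
      have := congrArg (φ ^ n) h
      rw [← AlgEquiv.mul_apply, mul_inv_cancel, AlgEquiv.one_apply] at this
      exact this.symm
    · intro h
      conv_lhs => rw [← h]
      rw [← AlgEquiv.mul_apply, inv_mul_cancel, AlgEquiv.one_apply]

end gen

/-! ## The arithmetic of the exponents -/

section arith

variable {W : Type} [Fintype W] [DecidableEq W]

/-- the exponent with prescribed residues -/
def expo (π : W → ℕ) (n : ℕ) (x : W → ℤ) : ℤ :=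
  ∑ w, ((∏ w' ∈ univ.erase w, π w' ^ n : ℕ) : ℤ) * x w

lemma expo_dvd_iff {π : W → ℕ} (hp : ∀ w, (π w).Prime) (hinj : Function.Injective π) {n c : ℕ}
    (hc : c ≤ n) (x : W → ℤ) (w : W) : ((π w ^ c : ℕ) : ℤ) ∣ expo π n x ↔
      ((π w ^ c : ℕ) : ℤ) ∣ x w := by
  have hsplit : expo π n x = ((∏ w' ∈ univ.erase w, π w' ^ n : ℕ) : ℤ) * x w +
      ∑ v ∈ univ.erase w, ((∏ w' ∈ univ.erase v, π w' ^ n : ℕ) : ℤ) * x v := by
    exact (Finset.add_sum_erase univ
      (fun v => ((∏ w' ∈ univ.erase v, π w' ^ n : ℕ) : ℤ) * x v) (Finset.mem_univ w)).symm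
  have hrest : ((π w ^ c : ℕ) : ℤ) ∣
      ∑ v ∈ univ.erase w, ((∏ w' ∈ univ.erase v, π w' ^ n : ℕ) : ℤ) * x v := by
    apply Finset.dvd_sum
    intro v hv
    apply Dvd.dvd.mul_right
    rw [Int.natCast_dvd_natCast]
    have hwv : w ∈ univ.erase v := by
      rw [Finset.mem_erase] at hv ⊢
      exact ⟨fun h => hv.1 h.symm, Finset.mem_univ _⟩
    exact (pow_dvd_pow _ hc).trans (Finset.dvd_prod_of_mem (fun w' => π w' ^ n) hwv)
  rw [hsplit, dvd_add_left hrest]
  have hcop : IsCoprime ((π w ^ c : ℕ) : ℤ) ((∏ w' ∈ univ.erase w, π w' ^ n : ℕ) : ℤ) := by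
    rw [Nat.isCoprime_iff_coprime]
    apply Nat.Coprime.prod_right
    intro v hv
    apply Nat.Coprime.pow
    rw [Nat.coprime_primes (hp w) (hp v)]
    intro h
    exact (Finset.mem_erase.1 hv).1 (hinj h).symm
  constructor
  · intro h
    exact hcop.dvd_of_dvd_mul_left h
  · intro h
    exact h.mul_left _

/-- the residues of the left family -/
def gq (q n : ℕ) : ℕ → ℤ
  | 0 => 0
  | (i + 1) => gq q n i - (q : ℤ) ^ (n - 2 - i)

lemma gq_dvd (q n i : ℕ) : ∀ j, i ≤ j → j + 1 ≤ n →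
    ((q ^ (n - 1 - j) : ℕ) : ℤ) ∣ gq q n j - gq q n i := by
  intro j hij
  induction j, hij using Nat.le_induction with
  | base => intro _; simp
  | succ j hij ih =>
    intro hj
    have h1 := ih (by omega)
    have h2 : n - 1 - (j + 1) = n - 2 - j := by omega
    rw [h2]
    have h3 : gq q n (j + 1) - gq q n i = (gq q n j - gq q n i) - (q : ℤ) ^ (n - 2 - j) := by
      simp only [gq]; ring
    rw [h3]
    apply dvd_sub
    · refine dvd_trans ?_ h1
      rw [Int.natCast_dvd_natCast]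
      exact pow_dvd_pow _ (by omega)
    · push_cast
      exact dvd_refl _

lemma gq_lt_dvd (q n i j : ℕ) (hij : i < j) (hj : j < n) :
    ((q ^ (n - j) : ℕ) : ℤ) ∣ gq q n j + (q : ℤ) ^ (n - 1 - j) - gq q n i := by
  obtain ⟨j', rfl⟩ : ∃ j', j = j' + 1 := ⟨j - 1, by omega⟩
  have h := gq_dvd q n i j' (by omega) (by omega)
  have h1 : gq q n (j' + 1) + (q : ℤ) ^ (n - 1 - (j' + 1)) - gq q n i =
      gq q n j' - gq q n i := by
    simp only [gq]
    have : n - 1 - (j' + 1) = n - 2 - j' := by omega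
    rw [this]; ring
  rw [h1]
  have h2 : n - (j' + 1) = n - 1 - j' := by omega
  rw [h2]
  exact h

end arith

end Pool.Agent.W937.SingleOrbit
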