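import Pool.Agent.W937.SingleOrbitC

/-!
# Single-orbit versus general local characterizations: the main construction
-/

namespace Pool.Agent.W937.SingleOrbit

open Finset

/-- The construction, over an arbitrary extension of degree `(∏ π w) ^ n`, where the `π w` are
distinct primes indexed by `Fin r × Bool`. -/
theorem construction {r : ℕ} (hr : 1 ≤ r) (π : Fin r × Bool → ℕ) (hp : ∀ w, (π w).Prime)
    (hinj : Function.Injective π) {F K : Type} [Field F] [Field K] [Finite F] [Finite K]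
    [Algebra F K] {n : ℕ} (hn : 1 ≤ n) (hdeg : Module.finrank F K = (∏ w, π w) ^ n) :
    ∃ P : Submodule F (K → F), AffineInvariant P ∧
      LocallyCharacterized (3 * 2 ^ (2 * r - 1)) P ∧
      SingleOrbitCharacterized (kPrime P) P ∧ n ^ r ≤ kPrime P := by
  classical
  have := Fintype.ofFinite F
  have : Module.Finite F K := Module.Finite.of_finite
  obtain ⟨φ, hφ⟩ : ∃ φ : K ≃ₐ[F] K, ∀ x, φ x = x ^ Nat.card F :=
    ⟨FiniteField.frobeniusAlgEquivOfAlgebraic F K, fun x => by
      rw [FiniteField.coe_frobeniusAlgEquivOfAlgebraic, Nat.card_eq_fintype_card]⟩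
  -- generators of the subfields
  have hgen : ∀ (w : Fin r × Bool) (c : ℕ), c ≤ n →
      ∃ z : K, ∀ e : ℤ, (φ ^ e) z = z ↔ ((π w ^ c : ℕ) : ℤ) ∣ e := by
    intro w c hc
    apply exists_gen φ hφ
    rw [hdeg, ← Finset.prod_pow]
    exact (pow_dvd_pow _ hc).trans (Finset.dvd_prod_of_mem (fun w' => π w' ^ n) (mem_univ w))
  choose! gen hgen using hgen
  -- the clauses
  obtain ⟨s, hs⟩ : ∃ s, 2 * r = s + 1 := ⟨2 * r - 1, by omega⟩
  have hsodd : Odd s := by
    rw [Nat.odd_iff]; omega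
  have hcardW : Fintype.card (Fin (s + 1)) = Fintype.card (Fin r × Bool) := by
    simp; omega
  let e : Fin (s + 1) ≃ Fin r × Bool := Fintype.equivOfCardEq hcardW
  let ex : (Fin r → Fin n) → Fin r × Bool → ℕ :=
    fun L w => if w.2 then (L w.1 : ℕ) + 1 else n - (L w.1 : ℕ)
  have hex : ∀ L w, ex L w ≤ n := by
    intro L w
    simp only [ex]
    split_ifs
    · have := (L w.1).2; omega
    · omega
  let lam : (Fin r → Fin n) → Fin (s + 1) → K := fun L v => gen (e v) (ex L (e v))
  let κ : (Fin r → Fin n) → (Finset (Fin s) × Fin 3) → F := fun _ => kap F s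
  let z : (Fin r → Fin n) → (Finset (Fin s) × Fin 3) → K := fun L => pnt s (lam L)
  have h0 : ∀ i, ∑ l, κ i l = 0 := fun _ => kap_sum hsodd.pos
  have h1 : ∀ i, ∑ l, algebraMap F K (κ i l) * z i l = 0 := fun L => kap_sum_pnt (lam L)
  have htens : ∀ L (g : ℤ), tens (κ L) (z L) (φ ^ g) = 0 ↔
      ∃ w, ((π w ^ ex L w : ℕ) : ℤ) ∣ g := by
    intro L g
    simp only [κ, z]
    rw [tens_prod hsodd, Finset.prod_eq_zero_iff]
    constructor
    · rintro ⟨v, _, hv⟩
      refine ⟨e v, ?_⟩
      rw [← hgen (e v) _ (hex L _)]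
      exact sub_eq_zero.1 hv
    · rintro ⟨w, hw⟩
      refine ⟨e.symm w, mem_univ _, ?_⟩
      rw [← hgen w _ (hex L _)] at hw
      simp only [lam, Equiv.apply_symm_apply]
      exact sub_eq_zero.2 hw
  -- the two families of automorphisms
  let gx : (Fin r → Fin n) → Fin r × Bool → ℤ :=
    fun L w => if w.2 then 0 else gq (π w) n (L w.1)
  let hx : (Fin r → Fin n) → Fin r × Bool → ℤ :=
    fun L w => if w.2 then (π w : ℤ) ^ (L w.1 : ℕ)
      else gq (π w) n (L w.1) + (π w : ℤ) ^ (n - 1 - (L w.1 : ℕ))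
  have hfin : Fintype (Lex (Fin r → Fin n)) := Fintype.ofEquiv (Fin r → Fin n) toLex
  let G : Lex (Fin r → Fin n) → (K ≃ₐ[F] K) := fun L => φ ^ expo π n (gx (ofLex L))
  let H : Lex (Fin r → Fin n) → (K ≃ₐ[F] K) := fun L => φ ^ expo π n (hx (ofLex L))
  have hGH : ∀ x y, (G x)⁻¹ * H y =
      φ ^ expo π n (fun w => hx (ofLex y) w - gx (ofLex x) w) := by
    intro x y
    simp only [G, H]
    rw [← zpow_neg, ← zpow_add]
    congr 1
    unfold expo
    rw [← Finset.sum_neg_distrib, ← Finset.sum_add_distrib]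
    refine Finset.sum_congr rfl fun w _ => ?_
    ring
  have hlt : ∀ x y : Lex (Fin r → Fin n), x < y → ∀ i, tens (κ i) (z i) ((G x)⁻¹ * H y) = 0 := by
    rintro x y ⟨b, -, hb⟩ L
    rw [hGH, htens]
    have hb' : (ofLex x b : ℕ) < (ofLex y b : ℕ) := hb
    have hyn : (ofLex y b : ℕ) < n := (ofLex y b).2
    by_cases hc : (L b : ℕ) + 1 ≤ (ofLex y b : ℕ)
    · refine ⟨(b, true), ?_⟩
      rw [expo_dvd_iff hp hinj (hex L _)]
      simp only [ex, hx, gx, if_true, sub_zero]
      push_cast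
      exact pow_dvd_pow _ hc
    · refine ⟨(b, false), ?_⟩
      rw [expo_dvd_iff hp hinj (hex L _)]
      have h3 := gq_lt_dvd (π (b, false)) n _ _ hb' hyn
      simp only [ex, hx, gx, Bool.false_eq_true, if_false]
      refine dvd_trans ?_ h3
      rw [Int.natCast_dvd_natCast]
      exact pow_dvd_pow _ (by omega)
  have hdiag : ∀ x : Lex (Fin r → Fin n), ∃ i, tens (κ i) (z i) ((G x)⁻¹ * H x) ≠ 0 := by
    intro x
    refine ⟨ofLex x, ?_⟩
    rw [hGH, Ne, htens]
    rintro ⟨⟨b, c⟩, hw⟩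
    rw [expo_dvd_iff hp hinj (hex _ _)] at hw
    have hxn : (ofLex x b : ℕ) < n := (ofLex x b).2
    have hprime := hp (b, c)
    rcases c with _ | _
    · simp only [ex, hx, gx, Bool.false_eq_true, if_false, add_sub_cancel_left] at hw
      have h2 : π (b, false) ^ (n - (ofLex x b : ℕ)) ∣ π (b, false) ^ (n - 1 - (ofLex x b : ℕ)) := by
        exact_mod_cast hw
      have h3 := (Nat.pow_dvd_pow_iff_le_right hprime.one_lt).1 h2
      omega
    · simp only [ex, hx, gx, if_true, sub_zero] at hw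
      have h2 : π (b, true) ^ ((ofLex x b : ℕ) + 1) ∣ π (b, true) ^ (ofLex x b : ℕ) := by
        exact_mod_cast hw
      have h3 := (Nat.pow_dvd_pow_iff_le_right hprime.one_lt).1 h2
      omega
  have hcardX : Fintype.card (Lex (Fin r → Fin n)) = n ^ r := by
    rw [Fintype.card_congr (ofLex : Lex (Fin r → Fin n) ≃ (Fin r → Fin n))]; simp
  have hne : prop κ z ≠ ⊤ := by
    obtain ⟨i, hi⟩ := hdiag (toLex fun _ => ⟨0, hn⟩)
    obtain ⟨c, hc⟩ := exists_quad_notMem_prop h0 h1 hi
    intro h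
    rw [h] at hc
    exact hc trivial
  have haff := prop_affineInvariant κ z
  have hk := singleOrbit_kPrime (prop κ z) haff hne
  refine ⟨prop κ z, haff, ?_, hk, ?_⟩
  · apply prop_locallyCharacterized κ z (fun _ => kap_ne)
    rw [Fintype.card_prod, Fintype.card_finset, Fintype.card_fin, Fintype.card_fin]
    have : 2 * r - 1 = s := by omega
    rw [this, mul_comm]
  · rw [← hcardX]
    exact card_le_of_singleOrbit h0 h1 G H hlt hdiag hk

/-- Distinct primes indexed by `Fin r × Bool`, with the value at `r = 1` being `2, 3`. -/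
lemma exists_primes (r : ℕ) : ∃ π : Fin r × Bool → ℕ, (∀ w, (π w).Prime) ∧
    Function.Injective π := by
  refine ⟨fun w => Nat.nth Nat.Prime (2 * w.1 + (if w.2 then 1 else 0)), fun w => ?_, ?_⟩
  · exact Nat.prime_nth_prime _
  · rintro ⟨a, b⟩ ⟨a', b'⟩ h
    have h1 := Nat.nth_injective Nat.infinite_setOfPred_prime h
    rcases b with _ | _ <;> rcases b' with _ | _ <;> simp at h1 ⊢ <;> omega

end Pool.Agent.W937.SingleOrbit
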